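import Mathlib
import Pool.Agent.T2H97.KS.Main

set_option autoImplicit false

/-!
# It can be forced that some `𝔟_κ`-scale set is `K_κ`
-/

namespace Pool.Agent.Results.MP_b6a793_lc.CompactScaleSet

open Cardinal Pool.Agent.Helper669.Forcing Pool.Agent.T2H97.EDM Pool.Agent.T2H97.KS

/-- Let `κ` be an uncountable cardinal with `κ ^ μ ≤ κ` for all `μ < κ`, for example a weakly
compact cardinal. There is a forcing notion `P` such that every directed set of fewer than `κ`
conditions has a lower bound, all antichains have cardinality at most `κ`, and all conditions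
force: all cardinals of the ground model are still cardinals, `κ` is regular, any `κ` many
functions from `κ` to `κ` are bounded (so `𝔟_κ ≥ κ⁺`), and there is a `𝔟_κ`-scale of length `κ⁺`
such that the set of its members (as subsets of `κ`) together with all bounded subsets of `κ` is
the union of `κ` many `κ`-compact subsets of `2 ^ κ`. If moreover the weak compactness of `κ`
(that is, the `κ`-compactness of `2 ^ κ`) cannot be destroyed by forcing notions which have lower
bounds for directed sets of fewer than `κ` conditions, then `P` preserves it. -/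
theorem result (κ : Cardinal.{0}) (hκ : ℵ₀ < κ) (hpow : ∀ μ < κ, κ ^ μ ≤ κ) :
    ∃ (P : Type) (_ : Preorder P), Nonempty P ∧ DirectedClosed κ P ∧ ChainCondition κ P ∧
      (∀ p : P, (∀ ν : Cardinal.{0}, p ∈ StaysCardinal P ν) ∧ p ∈ StaysRegular κ P ∧
        p ∈ BoundingGt κ P ∧ p ∈ HasKKappaScale κ P) ∧
      ((∀ (Q : Type) (_ : Preorder Q), DirectedClosed κ Q → ∀ q : Q, q ∈ TwoPowCompact κ Q) →
        ∀ p : P, p ∈ TwoPowCompact κ P) := by
  obtain ⟨P, hP, hne, h1, h2, h3⟩ := exists_forcing κ hκ hpow
  exact ⟨P, hP, hne, h1, h2, h3, fun h p => h P hP h1 p⟩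

end Pool.Agent.Results.MP_b6a793_lc.CompactScaleSet
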